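import Pool.Agent.Q163.SM.Nec2

set_option autoImplicit false

/-!
The transversal matroids that are strict matching matroids.

For a matroid on a finite set let `r` be its rank, `c` the number of its coloops, `s` the number
of series classes of elements that are not coloops and `e` the number of those series classes
that have an even number of elements. A transversal matroid on `n` elements is a strict matching
matroid if and only if `r` is even and `s + e + r ≤ c + n`.
-/

namespace Pool.Agent.Results.MP_f8b95a_co.Characterization

open Pool.Agent.Q163.SM

theorem result {α : Type} [Fintype α] (M : Matroid α) (hE : M.E = Set.univ)
    (hT : IsTransversal M) :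
    IsStrictMatchingMatroid M ↔
      Even M.eRank.toNat ∧
      (seriesClasses M).ncard + {S ∈ seriesClasses M | Even S.ncard}.ncard + M.eRank.toNat ≤
        {x | M.IsColoop x}.ncard + Fintype.card α := by
  classical
  constructor
  · intro h
    exact nec hE hT h
  · rintro ⟨h1, h2⟩
    exact suff hE hT h1 h2

end Pool.Agent.Results.MP_f8b95a_co.Characterization
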